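import Pool.Agent.Helper395.CS.Moduli

/-!
# MP_8cc108_ag, Q1: the dimension bound for `G(α; n, L, k)` fails

We prove that the answer to Q1 is negative. On the hyperelliptic curve `y² = x^50 + 1` of genus `24`
with hyperelliptic line bundle `H`, let `L = 6H`, so `deg L = 12` and `h¹(L) = 18`. Any two `12`-stable
coherent systems `(E, V)` of type `(3, 12, 8)` are isomorphic, one exists, and it has `det E ≅ L`
(it is `E = O(2H)³` with `V ⊆ H⁰(E) = H⁰(2H) ⊗ ℂ³ = M₃(ℂ)` the traceless matrices; it is generically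
generated). Hence `G(12; 3, L, 8)` has local dimension `0` at its only point, although
`β(3, 12, 8) - g + h¹(L) * (8 choose 3) = 672`.

All definitions are in `Pool/Agent/Helper395/CS/Defs.lean`.
-/

namespace Pool.Agent.Results.MP_8cc108_ag.FixedDetBound

open Pool.Agent.Helper395.CS

theorem result :
    ∃ (K : Type) (_ : Field K) (_ : Algebra ℂ K), IsCurve K ∧ genus K = 24 ∧
      (∃ x y : K, y ^ 2 = x ^ 50 + 1 ∧ IntermediateField.adjoin ℂ {x, y} = ⊤) ∧
      ∃ L : LineBundle K, L.degree = 12 ∧ L.hOne = 18 ∧ expectedBound 3 8 L = 672 ∧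
        (∃ S : CoherentSystem K 3 L.degree 8,
          S.IsStable 12 ∧ S.bundle.det.Iso L ∧ S.IsGenericallyGenerated) ∧
        (∀ S T : CoherentSystem K 3 L.degree 8, S.IsStable 12 → T.IsStable 12 → S.Iso T) ∧
        Nonempty (ModuliSpace 3 8 L 12) ∧
        ∀ (M : ModuliSpace 3 8 L 12)
          (S : {S : CoherentSystem K 3 L.degree 8 // S.IsStable 12 ∧ S.bundle.det.Iso L}),
          localDim M.X (M.pt S) = 0 := by
  have hf : 48 < f50.natDegree := by rw [f50_natDegree]; norm_num
  set L := lineH hyp50.curve hyp50.x_ne 6 with hL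
  have hd : L.degree = 12 := by
    rw [hL, hyp50.degree_lineH]
    norm_num
  have hiso : ∀ S T : CoherentSystem K50 3 L.degree 8, S.IsStable 12 → T.IsStable 12 → S.Iso T :=
    fun S T hS hT => iso_of_stable hyp50 hf hd S T hS hT
  obtain ⟨S, hS, hSb, hSg⟩ := exists_stable hyp50 hf hd
  have hS' : S.bundle.det.Iso L := by
    rw [hSb]
    exact det_std hyp50
  exact ⟨K50, inferInstance, inferInstance, hyp50.curve, hyp50.genus_eq,
    ⟨x50, y50, y50_sq', adjoin50⟩, L, hd, hyp50.hOne_eq, hyp50.bound_eq, ⟨S, hS, hS', hSg⟩, hiso,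
    exists_moduliSpace hiso S hS hS', fun M S => M.localDim_eq_zero hiso S⟩

end Pool.Agent.Results.MP_8cc108_ag.FixedDetBound
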